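import Pool.Agent.K3h26.KP.Stm

/-!
# Bricks EV, EXC and STEP of project KP
-/

set_option autoImplicit false

open Finset

namespace Pool.Agent.K3h58.KP

open H947TP H947TP.C2ns Pool.Agent.K3h26.KP

theorem Ex_eq {D : ℕ} {L : AddSubgroup (Fin D → ℝ)} (hL : IsTile L) (k : Fin D)
    (f : (Fin D → ℝ) → ℝ) : Ex L k f = ∑ u ∈ (finA B3 hL k).toFinset, wgt k u * f u := by
  rw [Ex, finsum_mem_eq_finite_toFinset_sum _ (finA B3 hL k)]

theorem wgt_nonneg {D : ℕ} {L : AddSubgroup (Fin D → ℝ)} {k : Fin D} {u : Fin D → ℝ}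
    (hu : u ∈ AA L k) : 0 ≤ wgt k u := by
  rw [wgt]
  refine Finset.prod_nonneg fun l hl => ?_
  have := hu.2.2 l (ne_of_mem_erase hl)
  linarith

theorem t_EV : S_EV := by
  intro D L hL
  refine ⟨?_, ?_, ?_, ?_⟩
  · intro p hp f
    obtain ⟨-, -, hB⟩ := B3 D L hL
    have hAA : ∀ u ∈ AA L p, u = Pi.single p (1 : ℝ) := by
      intro u hu
      obtain ⟨hu1, hu2, hu3⟩ := hu
      have h := hB (u - Pi.single p (1 : ℝ)) (L.sub_mem hu1 hp) (by
        intro i
        by_cases hi : i = p
        · subst hi; simp [hu2]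
        · simpa [hi] using hu3 i hi)
      exact sub_eq_zero.mp h
    have hmem : (Pi.single p (1 : ℝ) : Fin D → ℝ) ∈ AA L p :=
      ⟨hp, by simp, fun l hl => by simp [hl]⟩
    have hAA' : AA L p = {(Pi.single p (1 : ℝ) : Fin D → ℝ)} := by
      ext u
      constructor
      · intro hu; exact hAA u hu
      · intro hu
        have hu' : u = Pi.single p (1 : ℝ) := hu
        rw [hu']
        exact hmem
    refine ⟨hmem, ?_⟩
    unfold Ex
    rw [hAA', finsum_mem_singleton]
    have : wgt p (Pi.single p (1 : ℝ)) = 1 := by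
      unfold wgt
      apply Finset.prod_eq_one
      intro l hl
      have hlk : l ≠ p := Finset.ne_of_mem_erase hl
      simp [hlk]
    rw [this, one_mul]
  · intro k f g hfg
    rw [Ex_eq hL, Ex_eq hL]
    refine Finset.sum_le_sum fun u hu => ?_
    have hu' := (finA B3 hL k).mem_toFinset.1 hu
    exact mul_le_mul_of_nonneg_left (hfg u hu') (wgt_nonneg hu')
  · intro k f g
    rw [Ex_eq hL, Ex_eq hL, Ex_eq hL, ← Finset.sum_add_distrib]
    exact Finset.sum_congr rfl fun u _ => by ring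
  · intro k s f
    simp only [Ex_eq hL, Finset.mul_sum]
    exact Finset.sum_comm

theorem exc_step {δ θ : ℝ} (hδ : 0 < δ) (hδ2 : δ ≤ 1 / 2) (h0 : 0 ≤ θ) (h1 : θ < 1) :
    (1 - θ) * (max 0 ((θ - (1 - δ)) / δ) / δ) + θ * (max 0 ((1 - θ - (1 - δ)) / δ) / δ) ≤ 1 := by
  have key : ∀ t : ℝ, 0 ≤ t → t ≤ 1 → (1 - t) * max 0 ((t - (1 - δ)) / δ) ≤ δ ∧
      (t ≤ 1 - δ → max 0 ((t - (1 - δ)) / δ) = 0) := by
    intro t ht0 ht1
    have h3 : t ≤ 1 - δ → max 0 ((t - (1 - δ)) / δ) = 0 := by
      intro h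
      exact max_eq_left (div_nonpos_of_nonpos_of_nonneg (by linarith) hδ.le)
    refine ⟨?_, h3⟩
    rcases le_total t (1 - δ) with h | h
    · rw [h3 h]; linarith
    · have h4 : max 0 ((t - (1 - δ)) / δ) ≤ 1 := by
        apply max_le (by norm_num)
        rw [div_le_one hδ]; linarith
      have h5 : 0 ≤ max 0 ((t - (1 - δ)) / δ) := le_max_left _ _
      nlinarith
  have e1 : (1 - θ) * (max 0 ((θ - (1 - δ)) / δ) / δ) +
      θ * (max 0 ((1 - θ - (1 - δ)) / δ) / δ) =
      ((1 - θ) * max 0 ((θ - (1 - δ)) / δ) + θ * max 0 ((1 - θ - (1 - δ)) / δ)) / δ := by ring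
  rw [e1, div_le_one hδ]
  obtain ⟨a1, a2⟩ := key θ h0 h1.le
  obtain ⟨b1, b2⟩ := key (1 - θ) (by linarith) (by linarith)
  rcases le_total θ (1 / 2) with h | h
  · rw [a2 (by linarith)]
    have : 1 - (1 - θ) = θ := by ring
    rw [this] at b1
    linarith
  · rw [b2 (by linarith)]
    linarith

theorem t_EXC : S_EXC := by
  classical
  intro D L δ k l hL hδ hδ2 hlk
  obtain ⟨σ, hσ⟩ := C3 allB5 B3 C1 (C2 B3) D L hL
  obtain ⟨h1, h2⟩ := hσ k
  rcases lt_trichotomy (σ k) (σ l) with hlt | heq | hgt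
  · rw [Ex_eq hL]
    rw [Finset.sum_eq_zero]
    · exact hδ.le
    · intro u hu
      have hu' := (finA B3 hL k).mem_toFinset.1 hu
      rw [h1 u hu' l hlt, abs_zero, max_eq_left, mul_zero]
      exact div_nonpos_of_nonpos_of_nonneg (by linarith) hδ.le
  · exact absurd (σ.injective heq).symm hlk
  · have h3 := h2 (fun l' t => if l' = l then max 0 ((t - (1 - δ)) / δ) / δ else 1) ?_ ?_
    · have h4 : ∀ u : Fin D → ℝ, ∏ l' ∈ Finset.univ.filter (fun l => σ l < σ k),
          (if l' = l then max 0 ((|u l'| - (1 - δ)) / δ) / δ else 1) =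
          max 0 ((|u l| - (1 - δ)) / δ) / δ := by
        intro u
        rw [Finset.prod_eq_single l]
        · rw [if_pos rfl]
        · intro l' _ hl'
          rw [if_neg hl']
        · intro h
          rw [Finset.mem_filter] at h
          exact absurd ⟨Finset.mem_univ l, hgt⟩ h
      simp only [h4] at h3
      rw [Ex_eq hL] at h3 ⊢
      have h5 : ∑ u ∈ (finA B3 hL k).toFinset, wgt k u * (max 0 ((|u l| - (1 - δ)) / δ) / δ) =
          (∑ u ∈ (finA B3 hL k).toFinset, wgt k u * max 0 ((|u l| - (1 - δ)) / δ)) / δ := by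
        rw [Finset.sum_div]
        exact Finset.sum_congr rfl fun u _ => by ring
      rw [h5, div_le_one hδ] at h3
      exact h3
    · intro l' t _ _
      split_ifs
      · exact div_nonneg (le_max_left _ _) hδ.le
      · norm_num
    · intro l' θ h0 h1
      split_ifs
      · exact exc_step hδ hδ2 h0 h1
      · linarith

theorem rem_ins {D : ℕ} (p : Fin (D + 1)) (t : ℝ) (w : Fin D → ℝ) :
    remMap p (Fin.insertNth p t w : Fin (D + 1) → ℝ) = w := by
  funext i
  rw [remMap_apply, Fin.insertNth_apply_succAbove]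

theorem eq_ins {D : ℕ} (p : Fin (D + 1)) (u : Fin (D + 1) → ℝ) :
    u = (Fin.insertNth p (u p) (remMap p u) : Fin (D + 1) → ℝ) := by
  funext i
  rcases Fin.eq_self_or_eq_succAbove p i with rfl | ⟨j, rfl⟩
  · rw [Fin.insertNth_apply_same]
  · rw [Fin.insertNth_apply_succAbove]
    rfl

theorem ins_sub {D : ℕ} (p : Fin (D + 1)) (t : ℝ) (z : ℤ) (w : Fin D → ℝ) :
    (Fin.insertNth p (t - z) w : Fin (D + 1) → ℝ) =
      (Fin.insertNth p t w : Fin (D + 1) → ℝ) -
        z • (Pi.single p (1 : ℝ) : Fin (D + 1) → ℝ) := by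
  funext i
  rcases Fin.eq_self_or_eq_succAbove p i with rfl | ⟨j, rfl⟩
  · rw [Pi.sub_apply, sm_self, Fin.insertNth_apply_same, Fin.insertNth_apply_same]
  · rw [Pi.sub_apply, sm_ne _ (Fin.succAbove_ne p j), Fin.insertNth_apply_succAbove,
      Fin.insertNth_apply_succAbove, sub_zero]

theorem t_STEP : S_STEP := by
  classical
  intro D L p hL hp
  have hex : ∀ w : Fin D → ℝ, ∃ θ : ℝ, w ∈ L.map (remMap p) → 0 ≤ θ ∧ θ < 1 ∧
      (Fin.insertNth p θ w : Fin (D + 1) → ℝ) ∈ L := by
    intro w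
    by_cases hw : w ∈ L.map (remMap p)
    · obtain ⟨v, hv, hvw⟩ := hw
      refine ⟨Int.fract (v p), fun _ => ⟨Int.fract_nonneg _, Int.fract_lt_one _, ?_⟩⟩
      rw [← hvw, Int.fract, ins_sub, ← eq_ins]
      exact L.sub_mem hv (L.zsmul_mem hp _)
    · exact ⟨0, fun h => absurd h hw⟩
  choose θ hθ using hex
  refine ⟨θ, hθ, fun k f => ?_⟩
  have hL' := C1 D L p hL hp
  have hA := finA B3 hL (p.succAbove k)
  have hB := finA B3 hL' k
  rw [Ex, Ex, finsum_mem_eq_finite_toFinset_sum _ hA, finsum_mem_eq_finite_toFinset_sum _ hB]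
  rw [← Finset.sum_fiberwise_of_maps_to (s := hA.toFinset) (t := hB.toFinset) (g := remMap p)
    (fun u hu => hB.mem_toFinset.2 (rem_mem (hA.mem_toFinset.1 hu)))]
  refine Finset.sum_congr rfl fun w hw => ?_
  have hw' := hB.mem_toFinset.1 hw
  obtain ⟨t0, t1, hins⟩ := hθ w hw'.1
  have hins2 : (Fin.insertNth p (θ w - 1) w : Fin (D + 1) → ℝ) ∈ L := by
    have := ins_sub p (θ w) 1 w
    rw [Int.cast_one, one_smul] at this
    rw [this]
    exact L.sub_mem hins hp
  -- the wanted function on the real numbers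
  have hfib : ∀ t : ℝ, |t| < 1 → (Fin.insertNth p t w : Fin (D + 1) → ℝ) ∈ L →
      (Fin.insertNth p t w : Fin (D + 1) → ℝ) ∈ hA.toFinset.filter (fun u => remMap p u = w) := by
    intro t ht htL
    rw [mem_filter, hA.mem_toFinset]
    refine ⟨⟨htL, ?_, fun l hl => ?_⟩, rem_ins p t w⟩
    · rw [Fin.insertNth_apply_succAbove]; exact hw'.2.1
    · rcases Fin.eq_self_or_eq_succAbove p l with rfl | ⟨j, rfl⟩
      · rw [Fin.insertNth_apply_same]; exact ht
      · rw [Fin.insertNth_apply_succAbove]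
        exact hw'.2.2 j (fun h => hl (by rw [h]))
  have hsub : ∀ u ∈ hA.toFinset.filter (fun u => remMap p u = w),
      u = (Fin.insertNth p (θ w) w : Fin (D + 1) → ℝ) ∨
      (θ w ≠ 0 ∧ u = (Fin.insertNth p (θ w - 1) w : Fin (D + 1) → ℝ)) := by
    intro u hu
    rw [mem_filter, hA.mem_toFinset] at hu
    obtain ⟨⟨hu1, hu2, hu3⟩, hu4⟩ := hu
    have hlt := abs_lt.1 (hu3 p (Fin.succAbove_ne p k).symm)
    have hf : Int.fract (u p) = θ w := by
      have := diff_int B3 hL hp hu1 hins (by rw [hu4, rem_ins])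
      rw [this, Fin.insertNth_apply_same, Int.fract_eq_self.2 ⟨t0, t1⟩]
    have h2 : u p = ⌊u p⌋ + θ w := by rw [← hf]; exact (Int.floor_add_fract (u p)).symm
    have h3 : ⌊u p⌋ = 0 ∨ ⌊u p⌋ = -1 := by
      have h4 : ⌊u p⌋ < 1 := Int.floor_lt.2 (by exact_mod_cast hlt.2)
      have h5 : -1 ≤ ⌊u p⌋ := Int.le_floor.2 (by push_cast; exact hlt.1.le)
      omega
    have h6 := eq_ins p u
    rw [hu4] at h6
    rcases h3 with h3 | h3
    · left
      rw [h3] at h2
      rw [h6]
      congr 1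
      rw [h2]; simp
    · right
      rw [h3] at h2
      have h7 : u p = θ w - 1 := by rw [h2]; push_cast; ring
      refine ⟨?_, ?_⟩
      · intro h8
        rw [h7, h8] at hlt
        linarith [hlt.1]
      · rw [h6, ← h7]
  have hval : ∀ t : ℝ, wgt (p.succAbove k) (Fin.insertNth p t w : Fin (D + 1) → ℝ) =
      (1 - |t|) * wgt k w := by
    intro t
    rw [wgt_succAbove, rem_ins, Fin.insertNth_apply_same]
  by_cases h0 : θ w = 0
  · have hS : hA.toFinset.filter (fun u => remMap p u = w) =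
        {(Fin.insertNth p (θ w) w : Fin (D + 1) → ℝ)} := by
      apply Finset.Subset.antisymm
      · intro u hu
        rw [mem_singleton]
        rcases hsub u hu with h | h
        · exact h
        · exact absurd h0 h.1
      · intro u hu
        rw [mem_singleton] at hu
        rw [hu]
        exact hfib _ (by rw [abs_of_nonneg t0]; exact t1) hins
    rw [hS, Finset.sum_singleton, hval, h0, abs_zero]
    ring
  · have hne : (Fin.insertNth p (θ w) w : Fin (D + 1) → ℝ) ≠
        (Fin.insertNth p (θ w - 1) w : Fin (D + 1) → ℝ) := by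
      intro h
      have := congrFun h p
      rw [Fin.insertNth_apply_same, Fin.insertNth_apply_same] at this
      linarith
    have hpos : 0 < θ w := lt_of_le_of_ne t0 (Ne.symm h0)
    have habs : |θ w - 1| = 1 - θ w := by rw [abs_of_nonpos (by linarith)]; ring
    have hS : hA.toFinset.filter (fun u => remMap p u = w) =
        {(Fin.insertNth p (θ w) w : Fin (D + 1) → ℝ),
          (Fin.insertNth p (θ w - 1) w : Fin (D + 1) → ℝ)} := by
      apply Finset.Subset.antisymm
      · intro u hu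
        rw [mem_insert, mem_singleton]
        rcases hsub u hu with h | h
        · exact Or.inl h
        · exact Or.inr h.2
      · intro u hu
        rw [mem_insert, mem_singleton] at hu
        rcases hu with hu | hu
        · rw [hu]
          exact hfib _ (by rw [abs_of_nonneg t0]; exact t1) hins
        · rw [hu]
          exact hfib _ (by rw [habs]; linarith) hins2
    rw [hS, Finset.sum_pair hne, hval, hval, abs_of_nonneg t0, habs]
    ring

end Pool.Agent.K3h58.KP
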